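import Pool.Agent.Hhelper54.AC.Final

/-!
# Degrees above a PA degree below the halting set

Which almost complete PA degrees compute an almost complete 1-random set? For the degrees which bound
a PA degree below `∅'` the answer is: exactly the degrees above `∅'`.
-/

namespace Pool.Agent.Results.MP_04c775_lc.ConesOverPA

open AC

theorem isPA_mono {A B : Set ℕ} (hB : IsPA B) (h : LeT B A) : IsPA A := by
  intro φ hφ
  obtain ⟨g, hg, hg2⟩ := hB φ hφ
  refine ⟨g, RecursiveIn.subst hg ?_, hg2⟩
  rintro f hf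
  rw [Set.mem_singleton_iff] at hf
  subst hf
  exact h

theorem key {A B Z : Set ℕ} (hZ : IsRandom Z) (hac : AlmostComplete Z) (hZA : LeT Z A)
    (hB : IsPA B) (hBA : LeT B A) (hBZ : LeT B (Join halting Z)) : LeT halting A := by
  have h1 : LeT halting (Join B Z) := by
    refine no_PA hZ hac (isPA_mono hB ?_) ?_ ?_
    · rw [leT_iff, ← join_eq]; exact Low4.red_join_left B Z
    · rw [leT_iff, ← join_eq]; exact Low4.red_join_right B Z
    · rw [leT_iff] at hBZ ⊢
      rw [← join_eq] at hBZ ⊢
      rw [← join_eq]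
      exact Low4.join_red hBZ (Low4.red_join_right _ _)
  rw [leT_iff] at h1 hZA hBA ⊢
  rw [← join_eq] at h1
  exact h1.trans (Low4.join_red hBA hZA)

/-- Let `A` compute a set `B` of PA degree with `B ≤_T ∅'`. Then `A` computes an almost complete
1-random set if and only if `A` computes `∅'`. And for every `B ≤_T ∅'` of PA degree which does not
compute `∅'` there is an almost complete set `A ≥_T B` (of PA degree) which does not compute `∅'`;
so it computes no almost complete 1-random set. -/
theorem result :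
    (∀ A B : Set ℕ, IsPA B → LeT B halting → LeT B A →
      ((∃ Z, IsRandom Z ∧ AlmostComplete Z ∧ LeT Z A) ↔ LeT halting A)) ∧
    ∀ B : Set ℕ, LeT B halting → ¬ LeT halting B →
      ∃ A, IsPA A ∧ AlmostComplete A ∧ ¬ LeT halting A ∧ LeT B A := by
  refine ⟨fun A B hB hB0 hBA => ⟨?_, fun h => ?_⟩, fun B _ hB => ?_⟩
  · rintro ⟨Z, hZ, hac, hZA⟩
    refine key hZ hac hZA hB hBA ?_
    rw [leT_iff] at hB0 ⊢
    rw [← join_eq]
    exact hB0.trans (Low4.red_join_left _ _)
  · obtain ⟨Z, h1, h2, h3, -⟩ := exists_random'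
    refine ⟨Z, h1, h2, ?_⟩
    rw [leT_iff] at h3 h ⊢
    exact h3.trans h
  · obtain ⟨A, h1, h2, h3, h4⟩ := exists_PA' B hB
    exact ⟨A, h2, h3, h4, h1⟩

end Pool.Agent.Results.MP_04c775_lc.ConesOverPA
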