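import Pool.Agent.Hhelper54.AC.Final

/-!
# Almost complete random sets below the halting set and PA degrees
-/

namespace Pool.Agent.Results.MP_04c775_lc.NoPABelowHalting

open AC

/-- There is a 1-random almost complete set `Z <_T ∅'`; and for EVERY 1-random almost complete set
`Z` and every set `A` of PA degree with `Z ≤_T A ≤_T ∅' ⊕ Z`, the set `A` computes `∅'`. Hence no
PA degree lies in the interval `[deg Z, 0')`, for any almost complete 1-random `Z <_T ∅'`. -/
theorem result :
    (∃ Z : Set ℕ, IsRandom Z ∧ AlmostComplete Z ∧ LeT Z halting ∧ ¬ LeT halting Z) ∧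
    ∀ Z A : Set ℕ, IsRandom Z → AlmostComplete Z → IsPA A → LeT Z A → LeT A (Join halting Z) →
      LeT halting A :=
  ⟨exists_random', fun _ _ h1 h2 h3 h4 h5 => no_PA h1 h2 h3 h4 h5⟩

end Pool.Agent.Results.MP_04c775_lc.NoPABelowHalting
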