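import Pool.Agent.Hhelper54.AC.Final

/-!
# Almost complete PA degrees computing almost complete random sets
-/

namespace Pool.Agent.Results.MP_04c775_lc.PAComputesRandom

open AC

/-- Every set `Z` which does not compute `∅'` is computable from an almost complete set `A` of PA
degree which does not compute `∅'`; and there are almost complete sets `A` of PA degree, not
computing `∅'`, which compute an almost complete 1-random set `Z` (even one with `Z ≤_T ∅'`). -/
theorem result :
    (∀ Z : Set ℕ, ¬ LeT halting Z → ∃ A, IsPA A ∧ AlmostComplete A ∧ ¬ LeT halting A ∧ LeT Z A) ∧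
    ∃ A Z : Set ℕ, IsPA A ∧ AlmostComplete A ∧ ¬ LeT halting A ∧
      IsRandom Z ∧ AlmostComplete Z ∧ LeT Z halting ∧ LeT Z A := by
  have h : ∀ Z : Set ℕ, ¬ LeT halting Z →
      ∃ A, IsPA A ∧ AlmostComplete A ∧ ¬ LeT halting A ∧ LeT Z A := by
    intro Z hZ
    obtain ⟨A, h1, h2, h3, h4⟩ := exists_PA' Z hZ
    exact ⟨A, h2, h3, h4, h1⟩
  refine ⟨h, ?_⟩
  obtain ⟨Z, h1, h2, h3, h4⟩ := exists_random'
  obtain ⟨A, h5, h6, h7, h8⟩ := h Z h4
  exact ⟨A, Z, h5, h6, h7, h1, h2, h3, h8⟩

end Pool.Agent.Results.MP_04c775_lc.PAComputesRandom
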